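import Pool.Agent.H46.MD.Win
import Pool.Agent.H43.MD.Det
import Pool.Agent.H26.BV.Zfc

/-!
# FIN: a model of ZFC in which all games with at least `2^ℵ₀` boards are determined
-/

set_option autoImplicit false

namespace MDI

open BV

theorem exists_model : ∃ (M : Type 1) (E : M → M → Prop), IsZFC E ∧ DetLarge E := by
  obtain ⟨B, iB, P, iP, e, hne, h⟩ := MD.exists_ctr
  obtain ⟨p⟩ := hne
  have htop : (⊤ : B) ≠ ⊥ := fun h0 => h.emb.ne_bot p (le_bot_iff.1 (le_top.trans h0.le))
  obtain ⟨V, -⟩ := UF.exists_mem (B := B) htop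
  exact ⟨MU V, MU.E V, isZFC V, detLarge h V⟩

end MDI
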