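import Pool.Agent.H33.MB.Sent

/-!
# The sentence: all games with at least `2^ℵ₀` boards are determined
-/

set_option autoImplicit false

universe v

namespace MDI

open BV PK MB

variable {M : Type v}

/-- For every set `D` of boards into which the set `P` of all subsets of `ω` injects (`|D| ≥ 2^ℵ₀`)
and every payoff set `A`, one of the players has a winning strategy. -/
def DetLarge (E : M → M → Prop) : Prop :=
  ∃ w P, IsOmega E w ∧ (∀ x, E x P ↔ ∀ z, E z x → E z w) ∧
    ∀ D, (∃ j, InjOn E j (fun x => E x P) (fun x => E x D)) →
      ∀ A, IsPayoff E w A → OneWins E w D A ∨ TwoWins E w D A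

end MDI
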