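import Pool.Agent.H43.MD.Ctr
import Pool.Agent.H33.MB.Two
import Pool.Agent.H92.CN.Opn

/-!
# TAB: tables of moves and names of plays and strategies
-/

set_option autoImplicit false

namespace MDI

open BV PK HC MB Pool.Agent.H86.CM
open HM hiding IsFun
open PM (HV hv_om hv_app hv_isOPair hv_isPair ball_mk ball_app ball_w bex_w mem_mk app_mk)
open MD (R IsN IsT Eqv Rn Ctr)

variable {B : Type} [CompleteBooleanAlgebra B]

/-! ## Values -/

theorem hv_isFun (f : BSet B) {X Y : ∀ U : UF B, MU U → Prop}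
    (hX : ∀ x : BSet B, HV fun U => X U (MU.mk U x))
    (hY : ∀ x : BSet B, HV fun U => Y U (MU.mk U x)) :
    HV fun U : UF B => IsFun (MU.E U) (MU.mk U f) (X U) (Y U) := by
  unfold IsFun
  refine HV.and ?_ (HV.and ?_ ?_)
  · exact HV.all fun p => (HV.mem p f).imp (HV.ex fun x => HV.ex fun y => (hX x).and
      ((hY y).and (hv_isOPair p x y)))
  · exact HV.all fun x => (hX x).imp (HV.ex fun y => hv_app f x y)
  · exact HV.all fun x => HV.all fun y => HV.all fun y' => (hv_app f x y).imp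
      ((hv_app f x y').imp (HV.eq y y'))

theorem hv_isMove (D m : BSet B) :
    HV fun U : UF B => IsMove (MU.E U) (om U) (MU.mk U D) (MU.mk U m) :=
  hv_isFun m (X := fun U x => MU.E U x (MU.mk U D)) (Y := fun U y => MU.E U y (om U))
    (fun x => HV.mem x D) hv_om

theorem hv_isPos (D n p : BSet B) :
    HV fun U : UF B => IsPos (MU.E U) (om U) (MU.mk U D) (MU.mk U n) (MU.mk U p) :=
  hv_isFun p (X := fun U x => MU.E U x (MU.mk U n))
    (Y := fun U y => IsMove (MU.E U) (om U) (MU.mk U D) y) (fun x => HV.mem x n) (hv_isMove D)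

theorem hv_isPlay (D g : BSet B) :
    HV fun U : UF B => IsPlay (MU.E U) (om U) (MU.mk U D) (MU.mk U g) :=
  hv_isFun g (X := fun U x => MU.E U x (om U))
    (Y := fun U y => IsMove (MU.E U) (om U) (MU.mk U D) y) hv_om (hv_isMove D)

theorem hv_isStrat (D s : BSet B) :
    HV fun U : UF B => IsStrat (MU.E U) (om U) (MU.mk U D) (MU.mk U s) :=
  hv_isFun s (X := fun U p => ∃ n, MU.E U n (om U) ∧ IsPos (MU.E U) (om U) (MU.mk U D) n p)
    (Y := fun U y => IsMove (MU.E U) (om U) (MU.mk U D) y)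
    (fun p => HV.ex fun n => (hv_om n).and (hv_isPos D n p)) (hv_isMove D)

theorem hv_isRes (g n p : BSet B) :
    HV fun U : UF B => IsRes (MU.E U) (MU.mk U g) (MU.mk U n) (MU.mk U p) := by
  unfold IsRes
  exact HV.all fun q => (HV.mem q p).iff ((HV.mem q g).and (HV.ex fun x => HV.ex fun y =>
    (HV.mem x n).and (hv_isOPair q x y)))

theorem hv_valAt (g n b k : BSet B) :
    HV fun U : UF B => ValAt (MU.E U) (MU.mk U g) (MU.mk U n) (MU.mk U b) (MU.mk U k) := by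
  unfold ValAt
  exact HV.ex fun m => (hv_app g n m).and (hv_app m b k)

theorem hv_resp (s g n b k : BSet B) :
    HV fun U : UF B => Resp (MU.E U) (MU.mk U s) (MU.mk U g) (MU.mk U n) (MU.mk U b)
      (MU.mk U k) := by
  unfold Resp
  exact HV.ex fun p => HV.ex fun m => (hv_isRes g n p).and ((hv_app s p m).and (hv_app m b k))

theorem hv_runOne (s g b x y : BSet B) :
    HV fun U : UF B => RunOne (MU.E U) (om U) (MU.mk U s) (MU.mk U g) (MU.mk U b) (MU.mk U x)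
      (MU.mk U y) := by
  unfold RunOne
  exact HV.all fun n => (hv_om n).imp (HV.and (HV.ex fun k => (hv_resp s g n b k).and
    (hv_app x n k)) (HV.ex fun k => (hv_valAt g n b k).and (hv_app y n k)))

theorem hv_isSuc (x y : BSet B) : HV fun U : UF B => IsSuc (MU.E U) (MU.mk U x) (MU.mk U y) := by
  unfold IsSuc
  exact HV.all fun z => (HV.mem z y).iff ((HV.mem z x).or (HV.eq z x))

theorem hv_runTwo (t f b x y : BSet B) :
    HV fun U : UF B => RunTwo (MU.E U) (om U) (MU.mk U t) (MU.mk U f) (MU.mk U b) (MU.mk U x)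
      (MU.mk U y) := by
  unfold RunTwo
  exact HV.all fun n => (hv_om n).imp (HV.and (HV.ex fun k => (hv_valAt f n b k).and
    (hv_app x n k)) (HV.ex fun n' => HV.ex fun k => (hv_isSuc n n').and
      ((hv_resp t f n' b k).and (hv_app y n k))))

/-- two functions with the same domain -/
theorem fun_ext {U : UF B} {f g : MU U} {X Y Y' : MU U → Prop} (hf : IsFun (MU.E U) f X Y)
    (hg : IsFun (MU.E U) g X Y') (h : ∀ x y, App (MU.E U) f x y → App (MU.E U) g x y) : f = g := by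
  refine MU.ext_E U _ _ fun p => ⟨fun hp => ?_, fun hp => ?_⟩
  · obtain ⟨x, y, hx, hy, hxy⟩ := hf.1 p hp
    obtain ⟨q, hq, hqg⟩ := h x y ⟨p, hxy, hp⟩
    have : p = q := isOPair_unique (MU.ext_E U) hxy hq
    rw [this]
    exact hqg
  · obtain ⟨x, y, hx, hy, hxy⟩ := hg.1 p hp
    obtain ⟨y', hy'⟩ := hf.2.1 x hx
    have h1 := hg.2.2 x y y' ⟨p, hxy, hp⟩ (h x y' hy')
    subst h1
    obtain ⟨q, hq, hqf⟩ := hy'
    have : p = q := isOPair_unique (MU.ext_E U) hxy hq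
    rw [this]
    exact hqf

/-! ## The boards -/

/-- to prove a property for all elements of the value of a name -/
theorem ball_d (D : BSet B) {Q : ∀ U : UF B, MU U → Prop}
    (hQ : ∀ x : BSet B, HV fun U => Q U (MU.mk U x)) (b : B)
    (h : ∀ V : UF B, b ∈ V → ∀ i : D.Idx, D.vl i ∈ V → Q V (MU.mk V (D.nm i))) (U : UF B)
    (hb : b ∈ U) (m : MU U) (hm : MU.E U m (MU.mk U D)) : Q U m := by
  cases D
  exact ball_mk hQ b h U hb m hm

theorem mem_d (D : BSet B) (V : UF B) {i : D.Idx} (hi : D.vl i ∈ V) :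
    MU.E V (MU.mk V (D.nm i)) (MU.mk V D) := V.mem_of_le hi (vl_le_bmem D i)

theorem snm_mem (V : UF B) (x : R) : MU.E V (MU.mk V (snm x)) (MU.mk V (Xn B)) :=
  mem_mk (A := snm) (a := fun _ => ⊤) V x V.top_mem

theorem ball_xn {Q : ∀ U : UF B, MU U → Prop}
    (hQ : ∀ x : BSet B, HV fun U => Q U (MU.mk U x)) (b : B)
    (h : ∀ V : UF B, b ∈ V → ∀ x : R, Q V (MU.mk V (snm x))) (U : UF B) (hb : b ∈ U)
    (m : MU U) (hm : MU.E U m (MU.mk U (Xn B))) : Q U m :=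
  ball_mk hQ b (fun V hV i _ => h V hV i) U hb m hm

/-- the ground model reals are all the subsets of `ω` -/
theorem mem_xn_iff {P : Type} [Preorder P] {e : P → B} (hs : CN.SClosed P) (he : DenseEmb P B e)
    (V : UF B) (m : MU V) : MU.E V m (MU.mk V (Xn B)) ↔ IsReal (MU.E V) (om V) m := by
  constructor
  · intro hm
    exact ball_xn (Q := fun V m => IsReal (MU.E V) (om V) m) CN.hv_isReal ⊤
      (fun V _ x => CN.isReal_snm V x) V V.top_mem m hm
  · intro hm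
    exact CN.ball_real hs he (Q := fun V m => MU.E V m (MU.mk V (Xn B)))
      (fun x => HV.mem x _) ⊤ (fun V _ x => snm_mem V x) V V.top_mem m hm

/-! ## Names of natural numbers, moves -/

theorem pt_of_isN {f : ℕ → B} (h : IsN f) : Pt f := ⟨h.2, h.1⟩

theorem isN_norm (b : B) (f : ℕ → B) (h1 : b ≤ ⨆ k, f k)
    (h2 : ∀ k l, k ≠ l → b ⊓ f k ⊓ f l = ⊥) :
    IsN fun k => (b ⊓ f k) ⊔ (if k = 0 then bᶜ else ⊥) := by
  constructor
  · intro k l hkl
    refine UF.eq_bot_of_forall fun U hU => ?_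
    rw [UF.inf_mem_iff, UF.sup_mem_iff, UF.sup_mem_iff, UF.inf_mem_iff, UF.inf_mem_iff] at hU
    obtain ⟨h3, h4⟩ := hU
    by_cases hb : b ∈ U
    · have h0 : ∀ m : ℕ, (if m = 0 then bᶜ else ⊥) ∉ U := by
        intro m hm
        by_cases hm0 : m = 0
        · rw [if_pos hm0, UF.compl_mem_iff] at hm
          exact hm hb
        · rw [if_neg hm0] at hm
          exact U.bot_notMem hm
      have h5 := h3.resolve_right (h0 k)
      have h6 := h4.resolve_right (h0 l)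
      have h7 := U.inf_mem (U.inf_mem h5.1 h5.2) h6.2
      rw [h2 k l hkl] at h7
      exact U.bot_notMem h7
    · have h5 : k = 0 := by
        by_contra hk
        rw [if_neg hk] at h3
        rcases h3 with h3 | h3
        · exact hb h3.1
        · exact U.bot_notMem h3
      have h6 : l = 0 := by
        by_contra hk
        rw [if_neg hk] at h4
        rcases h4 with h4 | h4
        · exact hb h4.1
        · exact U.bot_notMem h4
      exact hkl (h5.trans h6.symm)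
  · refine UF.eq_top_of_forall fun U => ?_
    by_cases hb : b ∈ U
    · refine U.mem_of_le (U.inf_mem hb (U.mem_of_le hb h1)) ?_
      rw [inf_iSup_eq]
      exact iSup_mono fun k => le_sup_left
    · refine U.mem_of_le (U.compl_mem_iff.2 hb) ?_
      refine le_trans ?_ (le_iSup (fun k => (b ⊓ f k) ⊔ (if k = 0 then bᶜ else ⊥)) 0)
      simp

theorem norm_mem {b : B} {f : ℕ → B} {U : UF B} (hb : b ∈ U) (k : ℕ) :
    (b ⊓ f k) ⊔ (if k = 0 then bᶜ else ⊥) ∈ U ↔ f k ∈ U := by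
  rw [UF.sup_mem_iff, UF.inf_mem_iff]
  constructor
  · rintro (h1 | h1)
    · exact h1.2
    · by_cases hk : k = 0
      · rw [if_pos hk, UF.compl_mem_iff] at h1
        exact absurd hb h1
      · rw [if_neg hk] at h1
        exact absurd h1 U.bot_notMem
  · exact fun h1 => Or.inl ⟨hb, h1⟩

/-- `φ` is the table of a sequence of moves on the boards `D` -/
def IsTd (D : BSet B) (φ : ℕ → D.Idx → ℕ → B) : Prop := ∀ n i, IsN (φ n i)

/-- the moves before `n` agree -/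
def Eqd (D : BSet B) (n : ℕ) (φ φ' : ℕ → D.Idx → ℕ → B) : B :=
  ⨅ m : Fin n, ⨅ i, ⨅ a, (D.vl i ⊓ φ m i a ⇨ φ' m i a) ⊓ (D.vl i ⊓ φ' m i a ⇨ φ m i a)

theorem Eqd_symm (D : BSet B) (n : ℕ) (φ φ' : ℕ → D.Idx → ℕ → B) :
    Eqd D n φ φ' = Eqd D n φ' φ := by
  unfold Eqd
  refine iInf_congr fun m => iInf_congr fun x => iInf_congr fun a => inf_comm _ _

theorem Eqd_le {D : BSet B} {n m : ℕ} (hm : m < n) (φ φ' : ℕ → D.Idx → ℕ → B) (i : D.Idx)
    (a : ℕ) : Eqd D n φ φ' ⊓ (D.vl i ⊓ φ m i a) ≤ φ' m i a := by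
  have h : Eqd D n φ φ' ≤ D.vl i ⊓ φ m i a ⇨ φ' m i a :=
    (iInf_le _ (⟨m, hm⟩ : Fin n)).trans ((iInf_le _ i).trans ((iInf_le _ a).trans inf_le_left))
  exact le_himp_iff.1 h

section Names

variable {D : BSet B}

theorem ball_mv {v : D.Idx → ℕ → B} {Q : ∀ U : UF B, MU U → MU U → Prop}
    (hQ : ∀ x y : BSet B, HV fun U => Q U (MU.mk U x) (MU.mk U y)) (b : B)
    (h : ∀ V : UF B, b ∈ V → ∀ (i : D.Idx) (k : ℕ), D.vl i ∈ V → v i k ∈ V →
      Q V (MU.mk V (D.nm i)) (nn V k))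
    (U : UF B) (hb : b ∈ U) (x y : MU U) (hxy : App (MU.E U) (MU.mk U (mvn D v)) x y) :
    Q U x y := by
  refine ball_app (X := fun z : D.Idx × ℕ => D.nm z.1)
    (Y := fun z : D.Idx × ℕ => chk B (z.2 : Ordinal.{0}))
    (a := fun z => D.vl z.1 ⊓ v z.1 z.2) hQ b ?_ U hb x y hxy
  intro V hV z hz
  exact h V hV z.1 z.2 (V.mem_of_le hz inf_le_left) (V.mem_of_le hz inf_le_right)

/-- a value of a function is in the range class -/
theorem isFun_val {U : UF B} {f x y : MU U} {X Y : MU U → Prop} (hf : IsFun (MU.E U) f X Y)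
    (h : App (MU.E U) f x y) : X x ∧ Y y := by
  obtain ⟨q, hq, hqf⟩ := h
  obtain ⟨x', y', hx, hy, hxy⟩ := hf.1 q hqf
  obtain ⟨rfl, rfl⟩ := isOPair_inj hq hxy
  exact ⟨hx, hy⟩

theorem isMove_mv (hD : Dj D) {v : D.Idx → ℕ → B} (hv : ∀ i, IsN (v i)) (V : UF B) :
    IsMove (MU.E V) (om V) (MU.mk V D) (MU.mk V (mvn D v)) :=
  isMove_mvn hD (fun i => pt_of_isN (hv i)) V

/-- the move number `n` of `g` has a name `mvn D v` -/
theorem exists_mv (hD : Dj D) (g : BSet B) (n : ℕ) : ∃ v : D.Idx → ℕ → B, (∀ i, IsN (v i)) ∧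
    ∀ U : UF B, ∀ m, App (MU.E U) (MU.mk U g) (nn U n) m →
      IsMove (MU.E U) (om U) (MU.mk U D) m →
      (∀ m', App (MU.E U) (MU.mk U g) (nn U n) m' → m' = m) → m = MU.mk U (mvn D v) := by
  obtain ⟨b, hb⟩ : HV fun U : UF B => ∃ m, App (MU.E U) (MU.mk U g) (nn U n) m ∧
      IsMove (MU.E U) (om U) (MU.mk U D) m ∧
      ∀ m', App (MU.E U) (MU.mk U g) (nn U n) m' → m' = m :=
    HV.ex fun m => (hv_app g (chk B (n : Ordinal.{0})) m).and ((hv_isMove _ m).and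
      (HV.all fun m' => (hv_app g (chk B (n : Ordinal.{0})) m').imp (HV.eq m' m)))
  choose f hf using fun (i : D.Idx) (k : ℕ) => hv_valAt g (chk B (n : Ordinal.{0})) (D.nm i)
    (chk B (k : Ordinal.{0}))
  have hf' : ∀ i k (U : UF B), f i k ∈ U ↔
      ValAt (MU.E U) (MU.mk U g) (nn U n) (MU.mk U (D.nm i)) (nn U k) := fun i k U => hf i k U
  have hN : ∀ i : D.Idx, IsN fun k => (b ⊓ D.vl i ⊓ f i k) ⊔
      (if k = 0 then (b ⊓ D.vl i)ᶜ else ⊥) := by
    intro i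
    refine isN_norm (b ⊓ D.vl i) (f i) ?_ ?_
    · refine UF.le_of_forall fun U hU => ?_
      rw [UF.inf_mem_iff] at hU
      obtain ⟨m, hm, hmm, -⟩ := (hb U).1 hU.1
      obtain ⟨k, hk⟩ := hmm.2.1 (MU.mk U (D.nm i)) (mem_d D U hU.2)
      exact bex_w (Q := fun U k => ValAt (MU.E U) (MU.mk U g) (nn U n) (MU.mk U (D.nm i)) k)
        (fun k => hv_valAt g (chk B (n : Ordinal.{0})) (D.nm i) k) ⊤ (f i)
        (fun V _ k hk => (hf' i k V).2 hk) U U.top_mem ⟨k, (isFun_val hmm hk).2, m, hm, hk⟩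
    · intro k l hkl
      refine UF.eq_bot_of_forall fun U hU => ?_
      rw [UF.inf_mem_iff, UF.inf_mem_iff, UF.inf_mem_iff, hf', hf'] at hU
      obtain ⟨⟨⟨h0, _⟩, m1, hm1, hk⟩, m2, hm2, hl⟩ := hU
      obtain ⟨m, hm, hmm, hu⟩ := (hb U).1 h0
      have e1 := hu m1 hm1
      have e2 := hu m2 hm2
      rw [e1] at hk
      rw [e2] at hl
      exact hkl (nn_inj U (hmm.2.2 _ _ _ hk hl))
  refine ⟨_, hN, ?_⟩
  intro U m hm hmm hu
  have hbU : b ∈ U := (hb U).2 ⟨m, hm, hmm, hu⟩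
  symm
  refine fun_ext (isMove_mv hD hN U) hmm ?_
  intro x y hxy
  obtain ⟨m, rfl⟩ := MU.mk_surj U m
  refine ball_mv (Q := fun V x y => App (MU.E V) (MU.mk V g) (nn V n) (MU.mk V m) →
    App (MU.E V) (MU.mk V m) x y) (fun x y => (hv_app g (chk B (n : Ordinal.{0})) m).imp
      (hv_app m x y)) b ?_ U hbU x y hxy hm
  intro V hV i k hi hk hmV
  rw [norm_mem (V.inf_mem hV hi), hf'] at hk
  obtain ⟨m2, hm2, hk2⟩ := hk
  obtain ⟨m0, hm0, -, hu0⟩ := (hb V).1 hV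
  rw [hu0 _ hmV, ← hu0 _ hm2]
  exact hk2

/-! ## Plays and positions -/

/-- name of the play with the table `φ` -/
noncomputable def tn (D : BSet B) (φ : ℕ → D.Idx → ℕ → B) : BSet B := sq fun n => mvn D (φ n)

/-- name of the position which consists of the first `n` moves of the table `φ` -/
noncomputable def pn (D : BSet B) (n : ℕ) (φ : ℕ → D.Idx → ℕ → B) : BSet B :=
  sqn n fun m => mvn D (φ m)

theorem isPlay_tn (hD : Dj D) {φ : ℕ → D.Idx → ℕ → B} (hφ : IsTd D φ) (V : UF B) :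
    IsPlay (MU.E V) (om V) (MU.mk V D) (MU.mk V (tn D φ)) :=
  isPlay_sq (fun V n => isMove_mv hD (hφ n) V) V

theorem isPos_pn (hD : Dj D) {φ : ℕ → D.Idx → ℕ → B} (hφ : IsTd D φ) (V : UF B) (n : ℕ) :
    IsPos (MU.E V) (om V) (MU.mk V D) (nn V n) (MU.mk V (pn D n φ)) :=
  isPos_sqn (fun V n => isMove_mv hD (hφ n) V) V n

theorem isRes_pn (V : UF B) (φ : ℕ → D.Idx → ℕ → B) (n : ℕ) :
    IsRes (MU.E V) (MU.mk V (tn D φ)) (nn V n) (MU.mk V (pn D n φ)) :=
  isRes_sqn V (fun m => mvn D (φ m)) n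

/-- every play and every position of standard length is given by a table -/
theorem exists_tab (hD : Dj D) (g : BSet B) : ∃ φ : ℕ → D.Idx → ℕ → B, IsTd D φ ∧
    (∀ U : UF B, IsPlay (MU.E U) (om U) (MU.mk U D) (MU.mk U g) →
      MU.mk U (tn D φ) = MU.mk U g) ∧
    ∀ (U : UF B) (n : ℕ), IsPos (MU.E U) (om U) (MU.mk U D) (nn U n) (MU.mk U g) →
      MU.mk U (pn D n φ) = MU.mk U g := by
  choose φ hφ1 hφ2 using exists_mv hD g
  have hT : IsTd D φ := hφ1
  refine ⟨φ, hT, fun U hU => ?_, fun U n hU => ?_⟩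
  · obtain ⟨b, hb⟩ := hv_isPlay D g
    refine fun_ext (isPlay_tn hD hT U) hU fun x y hxy => ?_
    refine ball_app (X := fun n : ℕ => chk B (n : Ordinal.{0})) (Y := fun n => mvn D (φ n))
      (a := fun _ => ⊤) (Q := fun V x y => App (MU.E V) (MU.mk V g) x y)
      (fun x y => hv_app g x y) b ?_ U ((hb U).2 hU) x y hxy
    intro V hV n _
    have h1 := (hb V).1 hV
    obtain ⟨m, hm⟩ := h1.2.1 (nn V n) (E_nn_om V n)
    have h2 := hφ2 n V m hm (isFun_val h1 hm).2 fun m' hm' => h1.2.2 _ _ _ hm' hm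
    show App (MU.E V) (MU.mk V g) (nn V n) (MU.mk V (mvn D (φ n)))
    rw [← h2]
    exact hm
  · obtain ⟨b, hb⟩ := hv_isPos D (chk B (n : Ordinal.{0})) g
    have hb' : ∀ V : UF B, b ∈ V ↔
        IsPos (MU.E V) (om V) (MU.mk V D) (nn V n) (MU.mk V g) := hb
    refine fun_ext (isPos_pn hD hT U n) hU fun x y hxy => ?_
    refine ball_app (X := fun k : Fin n => chk B ((k : ℕ) : Ordinal.{0}))
      (Y := fun k : Fin n => mvn D (φ k)) (a := fun _ => ⊤)
      (Q := fun V x y => App (MU.E V) (MU.mk V g) x y)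
      (fun x y => hv_app g x y) b ?_ U ((hb' U).2 hU) x y hxy
    intro V hV k _
    have h1 := (hb' V).1 hV
    obtain ⟨m, hm⟩ := h1.2.1 (nn V k) ((E_nn V k n).2 k.2)
    have h2 := hφ2 k V m hm (isFun_val h1 hm).2 fun m' hm' => h1.2.2 _ _ _ hm' hm
    show App (MU.E V) (MU.mk V g) (nn V k) (MU.mk V (mvn D (φ k)))
    rw [← h2]
    exact hm

theorem app_tn (V : UF B) (φ : ℕ → D.Idx → ℕ → B) (n : ℕ) (m : MU V) :
    App (MU.E V) (MU.mk V (tn D φ)) (nn V n) m ↔ m = MU.mk V (mvn D (φ n)) :=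
  app_sq V (fun n => mvn D (φ n)) n m

theorem app_pn (V : UF B) (φ : ℕ → D.Idx → ℕ → B) {n k : ℕ} (hk : k < n) (m : MU V) :
    App (MU.E V) (MU.mk V (pn D n φ)) (nn V k) m ↔ m = MU.mk V (mvn D (φ k)) :=
  app_sqn V (fun n => mvn D (φ n)) hk m

theorem valAt_tn (hD : Dj D) (V : UF B) (φ : ℕ → D.Idx → ℕ → B) (n : ℕ) {i : D.Idx}
    (hi : D.vl i ∈ V) (k : ℕ) :
    ValAt (MU.E V) (MU.mk V (tn D φ)) (nn V n) (MU.mk V (D.nm i)) (nn V k) ↔ φ n i k ∈ V := by
  constructor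
  · rintro ⟨m, hm, hmk⟩
    rw [app_tn] at hm
    rw [hm, app_mvn hD V i hi] at hmk
    exact hmk
  · intro h
    exact ⟨_, (app_tn V φ n _).2 rfl, (app_mvn hD V i hi (φ n) k).2 h⟩

/-- equal moves have equal tables -/
theorem mv_inj (hD : Dj D) {V : UF B} {v v' : D.Idx → ℕ → B}
    (h : MU.mk V (mvn D v) = MU.mk V (mvn D v')) {i : D.Idx} (hi : D.vl i ∈ V) (k : ℕ)
    (hk : v i k ∈ V) : v' i k ∈ V := by
  rw [← app_mvn hD V i hi v' k, ← h, app_mvn hD V i hi]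
  exact hk

theorem pn_len (hD : Dj D) {V : UF B} {n n' : ℕ} {φ φ' : ℕ → D.Idx → ℕ → B} (hφ : IsTd D φ)
    (h : MU.mk V (pn D n φ) = MU.mk V (pn D n' φ')) : n' ≤ n := by
  by_contra hlt
  push Not at hlt
  have h1 := (app_pn V φ' hlt (MU.mk V (mvn D (φ' n)))).2 rfl
  rw [← h] at h1
  have h2 := (isFun_val (isPos_pn hD hφ V n) h1).1
  exact lt_irrefl _ ((E_nn V n n).1 h2)

theorem beq_pn_le (hD : Dj D) (n : ℕ) (φ φ' : ℕ → D.Idx → ℕ → B) :
    beq (pn D n φ) (pn D n φ') ≤ Eqd D n φ φ' := by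
  refine le_iInf fun m => le_iInf fun i => le_iInf fun k => UF.le_of_forall fun V hV => ?_
  have h0 : MU.mk V (pn D n φ) = MU.mk V (pn D n φ') := (MU.mk_eq_iff V _ _).2 hV
  have h1 : MU.mk V (mvn D (φ m)) = MU.mk V (mvn D (φ' m)) := by
    rw [← app_pn V φ' m.2, ← h0, app_pn V φ m.2]
  rw [UF.inf_mem_iff, UF.himp_mem_iff, UF.himp_mem_iff, UF.inf_mem_iff, UF.inf_mem_iff]
  exact ⟨fun h => mv_inj hD h1 h.1 k h.2, fun h => mv_inj hD h1.symm h.1 k h.2⟩

/-! ## Strategies -/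

/-- name of the strategy whose move after the first `n` moves of the table `φ` has the table
`St φ n` -/
noncomputable def stn (D : BSet B) (St : (ℕ → D.Idx → ℕ → B) → ℕ → D.Idx → ℕ → B) : BSet B :=
  BSet.mk (ℕ × {φ : ℕ → D.Idx → ℕ → B // IsTd D φ})
    (fun z => opr (pn D z.1 z.2.1) (mvn D (St z.2.1 z.1))) fun _ => ⊤

/-- the moves of `St` depend only on the earlier moves of the opponent -/
structure Str (D : BSet B) (St : (ℕ → D.Idx → ℕ → B) → ℕ → D.Idx → ℕ → B) : Prop where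
  isT : ∀ φ, IsTd D φ → IsTd D (St φ)
  loc : ∀ φ φ', IsTd D φ → IsTd D φ' → ∀ n i a, Eqd D n φ φ' ⊓ (D.vl i ⊓ St φ n i a) ≤ St φ' n i a

variable {St : (ℕ → D.Idx → ℕ → B) → ℕ → D.Idx → ℕ → B}

theorem stn_app (V : UF B) {φ : ℕ → D.Idx → ℕ → B} (hφ : IsTd D φ) (n : ℕ) :
    App (MU.E V) (MU.mk V (stn D St)) (MU.mk V (pn D n φ)) (MU.mk V (mvn D (St φ n))) :=
  app_mk (X := fun z : ℕ × {φ : ℕ → D.Idx → ℕ → B // IsTd D φ} => pn D z.1 z.2.1)
    (Y := fun z => mvn D (St z.2.1 z.1)) (a := fun _ => ⊤) V (n, ⟨φ, hφ⟩) V.top_mem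

theorem ball_stn {Q : ∀ U : UF B, MU U → MU U → Prop}
    (hQ : ∀ x y : BSet B, HV fun U => Q U (MU.mk U x) (MU.mk U y)) (b : B)
    (h : ∀ V : UF B, b ∈ V → ∀ (n : ℕ) (φ : ℕ → D.Idx → ℕ → B), IsTd D φ →
      Q V (MU.mk V (pn D n φ)) (MU.mk V (mvn D (St φ n)))) (V : UF B) (hb : b ∈ V) (x y : MU V)
    (hxy : App (MU.E V) (MU.mk V (stn D St)) x y) : Q V x y := by
  refine ball_app (X := fun z : ℕ × {φ : ℕ → D.Idx → ℕ → B // IsTd D φ} => pn D z.1 z.2.1)
    (Y := fun z => mvn D (St z.2.1 z.1)) (a := fun _ => ⊤) hQ b ?_ V hb x y hxy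
  intro V hV z _
  exact h V hV z.1 z.2.1 z.2.2

theorem mv_eq_of_loc (hD : Dj D) (h : Str D St) {V : UF B} {n : ℕ} {φ φ' : ℕ → D.Idx → ℕ → B}
    (hφ : IsTd D φ) (hφ' : IsTd D φ') (he : MU.mk V (pn D n φ) = MU.mk V (pn D n φ')) :
    MU.mk V (mvn D (St φ n)) = MU.mk V (mvn D (St φ' n)) := by
  rw [MU.mk_eq_iff] at he ⊢
  refine V.mem_of_le he ?_
  refine (beq_pn_le hD n φ φ').trans ?_
  refine le_beq_vl _ _ _ _ (fun z => ?_) fun z => ?_
  · exact le_inf (inf_le_right.trans inf_le_left) (h.loc φ φ' hφ hφ' n z.1 z.2)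
  · refine le_inf (inf_le_right.trans inf_le_left) ?_
    rw [Eqd_symm]
    exact h.loc φ' φ hφ' hφ n z.1 z.2

theorem stn_fun (hD : Dj D) (h : Str D St) (V : UF B) (x y y' : MU V)
    (h1 : App (MU.E V) (MU.mk V (stn D St)) x y) (h2 : App (MU.E V) (MU.mk V (stn D St)) x y') :
    y = y' := by
  refine ball_stn (St := St) (Q := fun V x y => ∀ y', App (MU.E V) (MU.mk V (stn D St)) x y' →
    y = y') (fun x y => HV.all fun y' => (hv_app _ x y').imp (HV.eq y y')) ⊤ ?_ V V.top_mem x y h1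
    y' h2
  intro V _ n φ hφ y' hy'
  refine ball_stn (St := St) (Q := fun V x y => MU.mk V (pn D n φ) = x →
    MU.mk V (mvn D (St φ n)) = y)
    (fun x y => (HV.eq _ x).imp (HV.eq _ y)) ⊤ ?_ V V.top_mem _ y' hy' rfl
  intro V _ n' φ' hφ' he
  obtain rfl : n = n' := le_antisymm (pn_len hD hφ' he.symm) (pn_len hD hφ he)
  exact mv_eq_of_loc hD h hφ hφ' he

theorem isStrat_stn (hD : Dj D) (h : Str D St) (V : UF B) :
    IsStrat (MU.E V) (om V) (MU.mk V D) (MU.mk V (stn D St)) := by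
  refine ⟨?_, ?_, fun x y y' h1 h2 => stn_fun hD h V x y y' h1 h2⟩
  · intro p hp
    refine ball_mk (A := fun z : ℕ × {φ : ℕ → D.Idx → ℕ → B // IsTd D φ} =>
      opr (pn D z.1 z.2.1) (mvn D (St z.2.1 z.1))) (a := fun _ => ⊤) (Q := fun V p => ∃ x y,
        (∃ n, MU.E V n (om V) ∧ IsPos (MU.E V) (om V) (MU.mk V D) n x) ∧
        IsMove (MU.E V) (om V) (MU.mk V D) y ∧ IsOPair (MU.E V) p x y) (fun p => ?_) ⊤ ?_ V
      V.top_mem p hp
    · exact HV.ex fun x => HV.ex fun y => HV.and (HV.ex fun n => (hv_om n).and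
        (hv_isPos _ n x)) ((hv_isMove _ y).and (hv_isOPair p x y))
    · intro V _ z _
      exact ⟨_, _, ⟨nn V z.1, E_nn_om V _, isPos_pn hD z.2.2 V z.1⟩,
        isMove_mv hD (h.isT _ z.2.2 z.1) V, isOPair_opr V _ _⟩
  · rintro p ⟨n, hn, hp⟩
    refine ball_w (Q := fun V n => ∀ p, IsPos (MU.E V) (om V) (MU.mk V D) n p →
      ∃ y, App (MU.E V) (MU.mk V (stn D St)) p y) (fun n => HV.all fun p =>
        (hv_isPos _ n p).imp (HV.ex fun y => hv_app _ p y)) ⊤ ?_ V V.top_mem n hn p hp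
    intro V _ n p hp
    obtain ⟨p, rfl⟩ := MU.mk_surj V p
    obtain ⟨φ, hφ, -, h2⟩ := exists_tab hD p
    rw [← h2 V n hp]
    exact ⟨_, stn_app V hφ n⟩

theorem resp_stn (hD : Dj D) (h : Str D St) (V : UF B) {φ : ℕ → D.Idx → ℕ → B} (hφ : IsTd D φ)
    (n : ℕ) {i : D.Idx} (hi : D.vl i ∈ V) (k : ℕ) :
    Resp (MU.E V) (MU.mk V (stn D St)) (MU.mk V (tn D φ)) (nn V n) (MU.mk V (D.nm i))
      (nn V k) ↔ St φ n i k ∈ V := by
  constructor
  · rintro ⟨p, m, hp, hm, hk⟩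
    have h1 := isRes_unique V hp (isRes_pn V φ n)
    rw [h1] at hm
    have h2 := stn_fun hD h V _ _ _ hm (stn_app V hφ n)
    rw [h2, app_mvn hD V i hi] at hk
    exact hk
  · intro hk
    exact ⟨_, _, isRes_pn V φ n, stn_app V hφ n, (app_mvn hD V i hi (St φ n) k).2 hk⟩

end Names

end MDI
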