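import Pool.Agent.H46.MD.Tab
import Pool.Agent.H46.MD.Sent

/-!
# WIN: from the contract `MD.Ctr` to the determinacy of all games with at least `2^ℵ₀` boards
-/

set_option autoImplicit false

namespace MDI

open BV PK HC MB Pool.Agent.H86.CM
open HM hiding IsFun
open PM (HV hv_om hv_app hv_isOPair hv_isPair ball_mk ball_app ball_w bex_w mem_mk app_mk)
open MD (R IsN IsT Eqv Rn Ctr)

variable {B : Type} [CompleteBooleanAlgebra B]

/-! ## Functions of the ground model -/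

/-- name of the function `u` of the ground model -/
noncomputable def fu (B : Type) [CompleteBooleanAlgebra B] (u : ℕ → ℕ) : BSet B :=
  MB.fnn fun n k => if k = u n then ⊤ else ⊥

theorem app_fu (V : UF B) (u : ℕ → ℕ) (n k : ℕ) :
    App (MU.E V) (MU.mk V (fu B u)) (nn V n) (nn V k) ↔ k = u n := by
  unfold fu
  rw [MB.app_fnn]
  by_cases h : k = u n
  · simp only [h, if_true, iff_true]
    exact V.top_mem
  · simp only [h, if_false, iff_false]
    exact V.bot_notMem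

theorem isFun_fu (V : UF B) (u : ℕ → ℕ) :
    MB.IsFun (MU.E V) (MU.mk V (fu B u)) (fun n => MU.E V n (om V)) (fun k => MU.E V k (om V)) :=
  isFun_fnn (F := fun n k => if k = u n then (⊤ : B) else ⊥) (fun n => pt_one (u n)) V

theorem app_fu' (V : UF B) (u : ℕ → ℕ) (n : ℕ) (k : MU V)
    (h : App (MU.E V) (MU.mk V (fu B u)) (nn V n) k) : k = nn V (u n) :=
  (isFun_fu V u).2.2 _ _ _ h ((app_fu V u n (u n)).2 rfl)

section Emb

variable {P : Type} [Preorder P] {e : P → B}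

/-- no new functions from `ω` to `ω` -/
theorem eq_fu (hs : CN.SClosed P) (he : DenseEmb P B e) (x : BSet B) {p : P}
    (hp : ∀ V : UF B, e p ∈ V → MB.IsFun (MU.E V) (MU.mk V x) (fun n => MU.E V n (om V))
      (fun k => MU.E V k (om V))) :
    ∃ q, q ≤ p ∧ ∃ u : ℕ → ℕ, ∀ V : UF B, e q ∈ V → MU.mk V x = MU.mk V (fu B u) := by
  obtain ⟨q, hq, u, hu⟩ := CN.choose_all hs he (κ := ℕ) (ι := ℕ)
    (Q := fun n k V => App (MU.E V) (MU.mk V x) (nn V n) (nn V k)) (p := p) (by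
    intro n q hq
    choose c hc using fun k : ℕ => hv_app x (chk B (n : Ordinal.{0})) (chk B (k : Ordinal.{0}))
    have h1 : e q ≤ ⨆ k, c k := by
      refine UF.le_of_forall fun V hV => ?_
      have h2 := hp V (V.mem_of_le hV (he.mono _ _ hq))
      obtain ⟨k, hk⟩ := h2.2.1 (nn V n) (E_nn_om V n)
      exact bex_w (Q := fun V k => App (MU.E V) (MU.mk V x) (nn V n) k)
        (fun k => hv_app x (chk B (n : Ordinal.{0})) k) ⊤ c (fun W _ k hk => (hc k W).2 hk) V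
        V.top_mem ⟨k, (isFun_val h2 hk).2, hk⟩
    obtain ⟨r, hr, k, hk⟩ := he.exists_le_of_le_iSup h1
    exact ⟨r, hr, k, fun V hV => (hc k V).1 (V.mem_of_le hV hk)⟩)
  refine ⟨q, hq, u, fun V hV => ?_⟩
  symm
  refine fun_ext (isFun_fu V u) (hp V (V.mem_of_le hV (he.mono _ _ hq))) fun a b hab => ?_
  refine ball_app (X := fun z : (omn B).Idx × ℕ => (omn B).nm z.1)
    (Y := fun z : (omn B).Idx × ℕ => chk B (z.2 : Ordinal.{0}))
    (a := fun z : ℕ × ℕ => (⊤ : B) ⊓ if z.2 = u z.1 then ⊤ else ⊥)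
    (Q := fun V a b => App (MU.E V) (MU.mk V x) a b) (fun a b => hv_app x a b) (e q) ?_ V hV a b hab
  intro V hV z hz
  obtain ⟨n, k⟩ := z
  have hk : k = u n := by
    by_contra hne
    have hz' := V.mem_of_le hz inf_le_right
    simp only [if_neg hne] at hz'
    exact V.bot_notMem hz'
  have h1 := hu n V hV
  rw [← hk] at h1
  exact h1

end Emb

/-! ## ONE -/

/-- Boolean value of: the pair `u`, `v` belongs to the payoff set -/
noncomputable def pv (A : BSet B) (u v : ℕ → ℕ) : B := bmem (opr (fu B u) (fu B v)) A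

theorem pv_mem (A : BSet B) (u v : ℕ → ℕ) (V : UF B) :
    pv A u v ∈ V ↔ App (MU.E V) (MU.mk V A) (MU.mk V (fu B u)) (MU.mk V (fu B v)) :=
  los_app V A (fu B u) (fu B v)

/-- the answers of the strategy `t` to the moves `u` -/
def rsp (t : List ℕ → ℕ) (u : ℕ → ℕ) (n : ℕ) : ℕ := t (List.ofFn (fun i : Fin (n + 1) => u i))

/-- a disjoint family decides a supremum -/
theorem sel {κ : Type} {c : κ → B} (hc : ∀ a b, a ≠ b → c a ⊓ c b = ⊥) (g : κ → B) {V : UF B}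
    {a : κ} (ha : c a ∈ V) : (⨆ b, c b ⊓ g b) ∈ V ↔ g a ∈ V := by
  constructor
  · intro h
    refine V.mem_of_le (V.inf_mem ha h) ?_
    rw [inf_iSup_eq]
    refine iSup_le fun b => ?_
    by_cases hab : a = b
    · rw [hab]
      exact inf_le_right.trans inf_le_right
    · rw [← inf_assoc, hc a b hab, bot_inf_eq]
      exact bot_le
  · intro h
    exact V.mem_of_le (V.inf_mem ha h) (le_iSup (fun b => c b ⊓ g b) a)

theorem norm_le {b c : B} {f f' : ℕ → B} (k : ℕ) (h : c ⊓ (b ⊓ f k) ≤ f' k) :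
    c ⊓ ((b ⊓ f k) ⊔ (if k = 0 then bᶜ else ⊥)) ≤ (b ⊓ f' k) ⊔ (if k = 0 then bᶜ else ⊥) := by
  rw [inf_sup_left]
  refine sup_le_sup ?_ inf_le_right
  exact le_inf (inf_le_right.trans inf_le_left) h

/-- `J x i` is the value of: the real `x` is mapped to the board `D.nm i`; `β` is the value of: this is
an injection -/
structure Jn (D : BSet B) (β : B) (J : R → D.Idx → B) : Prop where
  sup : ∀ x, (⨆ i, J x i) = β
  d1 : ∀ x i i', i ≠ i' → J x i ⊓ J x i' = ⊥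
  d2 : ∀ i x x', x ≠ x' → J x i ⊓ J x' i = ⊥
  le : ∀ x i, J x i ≤ D.vl i

section One

variable {D : BSet B}

/-- the table of the moves on the reals -/
noncomputable def pull (β : B) (J : R → D.Idx → B) (φ : ℕ → D.Idx → ℕ → B) (n : ℕ) (x : R)
    (k : ℕ) : B :=
  (β ⊓ ⨆ i, J x i ⊓ φ n i k) ⊔ (if k = 0 then βᶜ else ⊥)

/-- the table of a move on the boards `D` -/
noncomputable def push (J : R → D.Idx → B) (v : R → ℕ → B) (i : D.Idx) (k : ℕ) : B :=
  ((⨆ x, J x i) ⊓ ⨆ x, J x i ⊓ v x k) ⊔ (if k = 0 then (⨆ x, J x i)ᶜ else ⊥)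

variable {β : B} {J : R → D.Idx → B}

theorem isT_pull (hJ : Jn D β J) {φ : ℕ → D.Idx → ℕ → B} (hφ : IsTd D φ) : IsT (pull β J φ) := by
  intro n x
  refine isN_norm β (fun k => ⨆ i, J x i ⊓ φ n i k) ?_ ?_
  · rw [iSup_comm, ← hJ.sup x]
    refine iSup_mono fun i => ?_
    rw [← inf_iSup_eq, (hφ n i).2, inf_top_eq]
  · intro k l hkl
    refine le_bot_iff.1 (le_trans (inf_le_inf_right _ inf_le_right) ?_)
    rw [iSup_inf_iSup]
    refine iSup_le fun z => ?_
    by_cases h : z.1 = z.2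
    · rw [h, ← (hφ n z.2).1 k l hkl]
      exact inf_le_inf inf_le_right inf_le_right
    · rw [← hJ.d1 x z.1 z.2 h]
      exact inf_le_inf inf_le_left inf_le_left

theorem isN_push (hJ : Jn D β J) {v : R → ℕ → B} (hv : ∀ x, IsN (v x)) (i : D.Idx) :
    IsN (push J v i) := by
  refine isN_norm (⨆ x, J x i) (fun k => ⨆ x, J x i ⊓ v x k) ?_ ?_
  · rw [iSup_comm]
    refine iSup_mono fun x => ?_
    rw [← inf_iSup_eq, (hv x).2, inf_top_eq]
  · intro k l hkl
    refine le_bot_iff.1 (le_trans (inf_le_inf_right _ inf_le_right) ?_)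
    rw [iSup_inf_iSup]
    refine iSup_le fun z => ?_
    by_cases h : z.1 = z.2
    · rw [h, ← (hv z.2).1 k l hkl]
      exact inf_le_inf inf_le_right inf_le_right
    · rw [← hJ.d2 i z.1 z.2 h]
      exact inf_le_inf inf_le_left inf_le_left

theorem pull_loc (hJ : Jn D β J) (φ φ' : ℕ → D.Idx → ℕ → B) {n m : ℕ} (hm : m < n) (x : R)
    (k : ℕ) : Eqd D n φ φ' ⊓ pull β J φ m x k ≤ pull β J φ' m x k := by
  refine norm_le (f := fun k => ⨆ i, J x i ⊓ φ m i k) (f' := fun k => ⨆ i, J x i ⊓ φ' m i k) k ?_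
  refine le_trans (inf_le_inf_left _ inf_le_right) ?_
  rw [inf_iSup_eq]
  refine iSup_mono fun i => le_inf (inf_le_right.trans inf_le_left) ?_
  refine le_trans (inf_le_inf_left _ ?_) (Eqd_le hm φ φ' i k)
  exact inf_le_inf_right _ (hJ.le x i)

theorem Eqd_le_Eqv (hJ : Jn D β J) (φ φ' : ℕ → D.Idx → ℕ → B) (n : ℕ) :
    Eqd D n φ φ' ≤ Eqv n (pull β J φ) (pull β J φ') := by
  refine le_iInf fun m => le_iInf fun x => le_iInf fun k => le_inf ?_ ?_
  · exact le_himp_iff.2 (pull_loc hJ φ φ' m.2 x k)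
  · rw [Eqd_symm]
    exact le_himp_iff.2 (pull_loc hJ φ' φ m.2 x k)

/-- the strategy of ONE on the boards `D` -/
noncomputable def trf (β : B) (J : R → D.Idx → B) (Sg : (ℕ → R → ℕ → B) → ℕ → R → ℕ → B)
    (φ : ℕ → D.Idx → ℕ → B) (n : ℕ) : D.Idx → ℕ → B := push J (Sg (pull β J φ) n)

theorem str_trf (hJ : Jn D β J) {Sg : (ℕ → R → ℕ → B) → ℕ → R → ℕ → B}
    (h1 : ∀ φ, IsT φ → IsT (Sg φ))
    (h2 : ∀ φ φ', IsT φ → IsT φ' → ∀ n x a, Eqv n φ φ' ⊓ Sg φ n x a ≤ Sg φ' n x a) :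
    Str D (trf β J Sg) := by
  constructor
  · intro φ hφ n i
    exact isN_push hJ (fun x => h1 _ (isT_pull hJ hφ) n x) i
  · intro φ φ' hφ hφ' n i k
    refine le_trans (inf_le_inf_left _ inf_le_right) ?_
    refine norm_le (f := fun k => ⨆ x, J x i ⊓ Sg (pull β J φ) n x k)
      (f' := fun k => ⨆ x, J x i ⊓ Sg (pull β J φ') n x k) k ?_
    refine le_trans (inf_le_inf_left _ inf_le_right) ?_
    rw [inf_iSup_eq]
    refine iSup_mono fun x => le_inf (inf_le_right.trans inf_le_left) ?_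
    refine le_trans ?_ (h2 _ _ (isT_pull hJ hφ) (isT_pull hJ hφ') n x k)
    exact inf_le_inf (Eqd_le_Eqv hJ φ φ' n) inf_le_right

theorem one_wins (hD : Dj D) (A : BSet B) (hJ : Jn D β J)
    {Sg : (ℕ → R → ℕ → B) → ℕ → R → ℕ → B} (h1 : ∀ φ, IsT φ → IsT (Sg φ))
    (h2 : ∀ φ φ', IsT φ → IsT φ' → ∀ n x a, Eqv n φ φ' ⊓ Sg φ n x a ≤ Sg φ' n x a)
    (hdet : ∀ φ, IsT φ → (⨅ x, ⨅ u, ⨅ v, (Rn φ (Sg φ) x u v ⊓ pv A u v)ᶜ) ≤
      ⨆ t : List ℕ → ℕ, ⨅ u : ℕ → ℕ, (pv A u (rsp t u))ᶜ) (V : UF B) (hβ : β ∈ V)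
    (hV : (⨆ t : List ℕ → ℕ, ⨅ u : ℕ → ℕ, (pv A u (rsp t u))ᶜ) ∉ V) :
    OneWins (MU.E V) (om V) (MU.mk V D) (MU.mk V A) := by
  have hS := str_trf hJ h1 h2
  refine ⟨MU.mk V (stn D (trf β J Sg)), isStrat_stn hD hS V, fun g hg => ?_⟩
  obtain ⟨g, rfl⟩ := MU.mk_surj V g
  obtain ⟨φ, hφ, h3, -⟩ := exists_tab hD g
  rw [← h3 V hg]
  by_contra hcon
  obtain ⟨c, hc⟩ : HV fun V : UF B => ¬ ∃ b x y, MU.E V b (MU.mk V D) ∧
      App (MU.E V) (MU.mk V A) x y ∧ RunOne (MU.E V) (om V) (MU.mk V (stn D (trf β J Sg)))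
        (MU.mk V (tn D φ)) b x y :=
    HV.not (HV.ex fun b => HV.ex fun x => HV.ex fun y => (HV.mem b _).and ((hv_app A x y).and
      (hv_runOne _ _ b x y)))
  have hT := isT_pull hJ hφ
  refine hV (V.mem_of_le (V.inf_mem ((hc V).2 hcon) hβ) (le_trans ?_ (hdet _ hT)))
  refine le_iInf fun x => le_iInf fun u => le_iInf fun v => ?_
  rw [le_compl_iff_disjoint_right, disjoint_iff]
  refine le_bot_iff.1 (le_trans (inf_le_inf_right _ (inf_le_inf_left _ (hJ.sup x).ge)) ?_)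
  rw [inf_iSup_eq, iSup_inf_eq]
  refine (iSup_eq_bot.2 fun i => UF.eq_bot_of_forall fun W hW => ?_).le
  rw [UF.inf_mem_iff, UF.inf_mem_iff, UF.inf_mem_iff, pv_mem] at hW
  obtain ⟨⟨hcW, hJW⟩, hRW, hAW⟩ := hW
  have hiW : D.vl i ∈ W := W.mem_of_le hJW (hJ.le x i)
  refine (hc W).1 hcW ⟨MU.mk W (D.nm i), MU.mk W (fu B u), MU.mk W (fu B v), mem_d D W hiW, hAW, ?_⟩
  intro n hn
  refine ball_w (Q := fun W n =>
    (∃ k, Resp (MU.E W) (MU.mk W (stn D (trf β J Sg))) (MU.mk W (tn D φ)) n (MU.mk W (D.nm i)) k ∧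
      App (MU.E W) (MU.mk W (fu B u)) n k) ∧
    ∃ k, ValAt (MU.E W) (MU.mk W (tn D φ)) n (MU.mk W (D.nm i)) k ∧
      App (MU.E W) (MU.mk W (fu B v)) n k) (fun n => ?_)
    (J x i ⊓ Rn (pull β J φ) (Sg (pull β J φ)) x u v) ?_ W (W.inf_mem hJW hRW) n hn
  · exact HV.and (HV.ex fun k => (hv_resp _ _ n _ k).and (hv_app _ n k))
      (HV.ex fun k => (hv_valAt _ n _ k).and (hv_app _ n k))
  · clear hn n hiW hAW hRW hJW hcW W
    intro W hW n
    rw [UF.inf_mem_iff] at hW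
    obtain ⟨hJW, hRW⟩ := hW
    have hiW : D.vl i ∈ W := W.mem_of_le hJW (hJ.le x i)
    have hβW : β ∈ W := W.mem_of_le hJW (by rw [← hJ.sup x]; exact le_iSup (J x) i)
    have hxW : (⨆ x, J x i) ∈ W := W.mem_of_le hJW (le_iSup (fun x => J x i) x)
    have h4 : Sg (pull β J φ) n x (u n) ⊓ pull β J φ n x (v n) ∈ W := W.mem_of_iInf hRW n
    rw [UF.inf_mem_iff] at h4
    have h5 : trf β J Sg φ n i (u n) ∈ W := by
      refine (norm_mem (f := fun k => ⨆ x, J x i ⊓ Sg (pull β J φ) n x k) hxW (u n)).2 ?_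
      exact (sel (c := fun x => J x i) (fun a b hab => hJ.d2 i a b hab)
        (fun x => Sg (pull β J φ) n x (u n)) hJW).2 h4.1
    have h6 : φ n i (v n) ∈ W := by
      have h7 := (norm_mem (f := fun k => ⨆ i, J x i ⊓ φ n i k) hβW (v n)).1 h4.2
      exact (sel (c := fun i => J x i) (fun a b hab => hJ.d1 x a b hab)
        (fun i => φ n i (v n)) hJW).1 h7
    exact ⟨⟨nn W (u n), (resp_stn hD hS W hφ n hiW (u n)).2 h5, (app_fu W u n (u n)).2 rfl⟩,
      ⟨nn W (v n), (valAt_tn hD W φ n hiW (v n)).2 h6, (app_fu W v n (v n)).2 rfl⟩⟩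

end One

theorem hv_injOn (j D : BSet B) : HV fun V : UF B => InjOn (MU.E V) (MU.mk V j)
    (fun x => MU.E V x (MU.mk V (Xn B))) (fun y => MU.E V y (MU.mk V D)) := by
  unfold InjOn
  refine HV.and ?_ (HV.and ?_ ?_)
  · exact HV.all fun x => (HV.mem x _).imp (HV.ex fun y => (HV.mem y D).and (hv_app j x y))
  · exact HV.all fun x => HV.all fun y => HV.all fun y' => (HV.mem x _).imp ((hv_app j x y).imp
      ((hv_app j x y').imp (HV.eq y y')))
  · exact HV.all fun x => HV.all fun x' => HV.all fun y => (HV.mem x _).imp ((HV.mem x' _).imp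
      ((hv_app j x y).imp ((hv_app j x' y).imp (HV.eq x x'))))

theorem exists_J {D : BSet B} (hD : Dj D) (j : BSet B) : ∃ (β : B) (J : R → D.Idx → B), Jn D β J ∧
    ∀ V : UF B, InjOn (MU.E V) (MU.mk V j) (fun x => MU.E V x (MU.mk V (Xn B)))
      (fun y => MU.E V y (MU.mk V D)) → β ∈ V := by
  obtain ⟨β, hβ⟩ := hv_injOn j D
  choose f hf using fun (x : R) (i : D.Idx) => hv_app j (snm x) (D.nm i)
  refine ⟨β, fun x i => β ⊓ (D.vl i ⊓ f x i), ⟨?_, ?_, ?_, ?_⟩, fun V hV => (hβ V).2 hV⟩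
  · intro x
    refine le_antisymm (iSup_le fun i => inf_le_left) ?_
    rw [← inf_iSup_eq]
    refine le_inf le_rfl (UF.le_of_forall fun V hV => ?_)
    by_contra hcon
    obtain ⟨y, hy, hxy⟩ := ((hβ V).1 hV).1 _ (snm_mem V x)
    refine ball_d D (Q := fun V y => ¬ App (MU.E V) (MU.mk V j) (MU.mk V (snm x)) y)
      (fun y => (hv_app j (snm x) y).not) (⨆ i, D.vl i ⊓ f x i)ᶜ ?_ V
      (V.compl_mem_iff.2 hcon) y hy hxy
    intro W hW i hi hap
    refine W.compl_mem_iff.1 hW (W.mem_of_le (W.inf_mem hi ((hf x i W).2 hap)) ?_)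
    exact le_iSup (fun i => D.vl i ⊓ f x i) i
  · intro x i i' hne
    refine UF.eq_bot_of_forall fun V hV => ?_
    rw [UF.inf_mem_iff, UF.inf_mem_iff, UF.inf_mem_iff, UF.inf_mem_iff, UF.inf_mem_iff, hf, hf] at hV
    obtain ⟨⟨hb, hi, h1⟩, -, hi', h2⟩ := hV
    have h3 := ((hβ V).1 hb).2.1 _ _ _ (snm_mem V x) h1 h2
    have h4 := V.inf_mem (V.inf_mem hi hi') ((MU.mk_eq_iff V _ _).1 h3)
    rw [hD i i' hne] at h4
    exact V.bot_notMem h4
  · intro i x x' hne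
    refine UF.eq_bot_of_forall fun V hV => ?_
    rw [UF.inf_mem_iff, UF.inf_mem_iff, UF.inf_mem_iff, UF.inf_mem_iff, UF.inf_mem_iff, hf, hf] at hV
    obtain ⟨⟨hb, hi, h1⟩, -, hi', h2⟩ := hV
    exact hne (CN.snm_inj V (((hβ V).1 hb).2.2 _ _ _ (snm_mem V x) (snm_mem V x') h1 h2))
  · exact fun x i => inf_le_right.trans inf_le_left

/-! ## TWO -/

section Two

variable {D : BSet B}

open Classical in
/-- TWO plays the strategy `t` on every board: the table of the answer to the first `n` moves of the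
table `φ` -/
noncomputable def Tw (D : BSet B) (t : List ℕ → ℕ) (φ : ℕ → D.Idx → ℕ → B) (n : ℕ) (i : D.Idx)
    (k : ℕ) : B :=
  ⨆ l : Fin n → ℕ, if t (List.ofFn l) = k then ⨅ m : Fin n, φ m i (l m) else ⊥

theorem iSup_fin (f : ℕ → ℕ → B) (hf : ∀ m, (⨆ k, f m k) = ⊤) (n : ℕ) :
    (⨆ l : Fin n → ℕ, ⨅ m : Fin n, f m (l m)) = ⊤ := by
  induction n with
  | zero =>
    rw [eq_top_iff]
    refine le_iSup_of_le (fun _ => 0) ?_
    exact le_iInf fun m => m.elim0
  | succ n ih =>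
    rw [eq_top_iff]
    calc (⊤ : B) = (⨆ l : Fin n → ℕ, ⨅ m : Fin n, f m (l m)) ⊓ ⨆ k, f n k := by
          rw [ih, hf, top_inf_eq]
      _ = ⨆ z : (Fin n → ℕ) × ℕ, (⨅ m : Fin n, f m (z.1 m)) ⊓ f n z.2 := iSup_inf_iSup
      _ ≤ _ := by
          refine iSup_le fun z => ?_
          refine le_iSup_of_le (Fin.snoc z.1 z.2) ?_
          refine le_iInf fun m => ?_
          refine Fin.lastCases ?_ (fun m => ?_) m
          · rw [Fin.snoc_last]
            exact inf_le_right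
          · rw [Fin.snoc_castSucc]
            exact inf_le_left.trans (iInf_le _ m)

theorem str_Tw (t : List ℕ → ℕ) : Str D (Tw D t) := by
  classical
  constructor
  · intro φ hφ n x
    constructor
    · intro k k' hk
      unfold Tw
      rw [iSup_inf_iSup]
      refine iSup_eq_bot.2 fun z => ?_
      by_cases h1 : t (List.ofFn z.1) = k
      · by_cases h2 : t (List.ofFn z.2) = k'
        · rw [if_pos h1, if_pos h2]
          have hne : z.1 ≠ z.2 := by
            intro h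
            rw [h] at h1
            exact hk (h1.symm.trans h2)
          obtain ⟨m, hm⟩ := Function.ne_iff.1 hne
          rw [eq_bot_iff, ← (hφ m x).1 _ _ hm]
          exact inf_le_inf (iInf_le _ m) (iInf_le _ m)
        · rw [if_neg h2, inf_bot_eq]
      · rw [if_neg h1, bot_inf_eq]
    · rw [eq_top_iff, ← iSup_fin (fun m k => φ m x k) (fun m => (hφ m x).2) n]
      refine iSup_le fun l => ?_
      refine le_iSup_of_le (t (List.ofFn l)) ?_
      unfold Tw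
      refine le_iSup_of_le l ?_
      rw [if_pos rfl]
  · intro φ φ' _ _ n x a
    unfold Tw
    rw [← inf_assoc, inf_iSup_eq]
    refine iSup_le fun l => ?_
    refine le_iSup_of_le l ?_
    by_cases h1 : t (List.ofFn l) = a
    · rw [if_pos h1, if_pos h1]
      refine le_iInf fun m => ?_
      refine le_trans ?_ (Eqd_le m.2 φ φ' x (l m))
      rw [inf_assoc]
      exact inf_le_inf_left _ (inf_le_inf_left _ (iInf_le _ m))
    · rw [if_neg h1, inf_bot_eq]
      exact bot_le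

theorem tw_val {t : List ℕ → ℕ} {φ : ℕ → D.Idx → ℕ → B} (hφ : IsTd D φ) {V : UF B} {x : D.Idx}
    {n k : ℕ} {u : ℕ → ℕ} (hu : ∀ m, φ m x (u m) ∈ V) (h : Tw D t φ (n + 1) x k ∈ V) :
    rsp t u n = k := by
  classical
  by_contra hne
  have h1 : (⨅ m : Fin (n + 1), φ m x (u m)) ∈ V := by
    have h2 := fin_iInf_mem' V (Finset.univ : Finset (Fin (n + 1))) (fun m => φ m x (u m))
      fun m _ => hu m
    refine V.mem_of_le h2 (le_iInf fun m => iInf₂_le m (Finset.mem_univ m))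
  have h3 := V.inf_mem h h1
  have h4 : Tw D t φ (n + 1) x k ⊓ (⨅ m : Fin (n + 1), φ m x (u m)) = ⊥ := by
    unfold Tw
    rw [iSup_inf_eq]
    refine iSup_eq_bot.2 fun l => ?_
    by_cases h5 : t (List.ofFn l) = k
    · rw [if_pos h5]
      have h6 : l ≠ fun m : Fin (n + 1) => u m := by
        intro h
        rw [h] at h5
        exact hne h5
      obtain ⟨m, hm⟩ := Function.ne_iff.1 h6
      rw [eq_bot_iff, ← (hφ m x).1 _ _ hm]
      exact inf_le_inf (iInf_le _ m) (iInf_le _ m)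
    · rw [if_neg h5, bot_inf_eq]
  rw [h4] at h3
  exact V.bot_notMem h3

theorem hv_payoff (A : BSet B) : HV fun V : UF B => IsPayoff (MU.E V) (om V) (MU.mk V A) := by
  unfold IsPayoff
  exact HV.all fun x => HV.all fun y => (hv_app A x y).imp
    ((hv_isFun x (X := fun V n => MU.E V n (om V)) (Y := fun V n => MU.E V n (om V)) hv_om
      hv_om).and (hv_isFun y (X := fun V n => MU.E V n (om V)) (Y := fun V n => MU.E V n (om V))
        hv_om hv_om))

theorem hv_twoWins (D A : BSet B) :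
    HV fun V : UF B => TwoWins (MU.E V) (om V) (MU.mk V D) (MU.mk V A) := by
  unfold TwoWins
  exact HV.ex fun t => (hv_isStrat _ t).and (HV.all fun f => (hv_isPlay _ f).imp (HV.all fun b =>
    HV.all fun x => HV.all fun y => (HV.mem b _).imp ((hv_app A x y).imp
      (hv_runTwo t f b x y).not)))

theorem two_wins {P : Type} [Preorder P] {e : P → B} (hs : CN.SClosed P) (he : DenseEmb P B e)
    (hD : Dj D) (A : BSet B) {a : B}
    (ha : ∀ V : UF B, a ∈ V → IsPayoff (MU.E V) (om V) (MU.mk V A))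
    (t : List ℕ → ℕ) (V : UF B) (haV : a ∈ V) (hV : (⨅ u : ℕ → ℕ, (pv A u (rsp t u))ᶜ) ∈ V) :
    TwoWins (MU.E V) (om V) (MU.mk V D) (MU.mk V A) := by
  set c : B := ⨅ u : ℕ → ℕ, (pv A u (rsp t u))ᶜ with hc
  refine ⟨MU.mk V (stn D (Tw D t)), isStrat_stn hD (str_Tw t) V, fun f hf b x y hb hxy hrun => ?_⟩
  obtain ⟨f, rfl⟩ := MU.mk_surj V f
  obtain ⟨φ, hφ, h1, -⟩ := exists_tab hD f
  rw [← h1 V hf] at hrun
  refine ball_d D (Q := fun V b => ∀ x y, App (MU.E V) (MU.mk V A) x y →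
    ¬ RunTwo (MU.E V) (om V) (MU.mk V (stn D (Tw D t))) (MU.mk V (tn D φ)) b x y)
    (fun b => HV.all fun x => HV.all fun y => (hv_app A x y).imp (hv_runTwo _ _ b x y).not)
    (a ⊓ c) ?_ V (V.inf_mem haV hV) b hb x y hxy hrun
  clear hrun hxy hb hf h1 x y b f haV hV V
  intro V hV z hz x y hxy hrun
  obtain ⟨x, rfl⟩ := MU.mk_surj V x
  obtain ⟨y, rfl⟩ := MU.mk_surj V y
  refine CN.of_dense he (Q := fun V => App (MU.E V) (MU.mk V A) (MU.mk V x) (MU.mk V y) →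
    ¬ RunTwo (MU.E V) (om V) (MU.mk V (stn D (Tw D t))) (MU.mk V (tn D φ)) (MU.mk V (D.nm z))
      (MU.mk V x) (MU.mk V y)) ((hv_app A x y).imp (hv_runTwo _ _ _ x y).not)
      (b := a ⊓ c ⊓ D.vl z) ?_ V (V.inf_mem hV hz) hxy hrun
  clear hrun hxy hz hV V
  intro q hq
  obtain ⟨r, hr, h1 | h1⟩ := CN.exists_decide he (hv_app A x y) q
  swap
  · exact ⟨r, hr, fun V hV h2 => absurd h2 (h1 V hV)⟩
  have hra : ∀ V : UF B, e r ∈ V → a ∈ V := fun V hV =>
    V.mem_of_le hV ((he.mono _ _ hr).trans (hq.trans (inf_le_left.trans inf_le_left)))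
  obtain ⟨r1, hr1, u, hu⟩ := eq_fu hs he x (p := r) fun V hV => (ha V (hra V hV) _ _ (h1 V hV)).1
  obtain ⟨r2, hr2, v, hv⟩ := eq_fu hs he y (p := r1) fun V hV =>
    (ha V (hra V (V.mem_of_le hV (he.mono _ _ hr1))) _ _
      (h1 V (V.mem_of_le hV (he.mono _ _ hr1)))).2
  refine ⟨r2, hr2.trans (hr1.trans hr), fun V hV hxy hrun => ?_⟩
  rw [hu V (V.mem_of_le hV (he.mono _ _ hr2)), hv V hV] at hrun hxy
  have h0 : a ⊓ c ⊓ D.vl z ∈ V := V.mem_of_le hV ((he.mono _ _ (hr2.trans (hr1.trans hr))).trans hq)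
  rw [UF.inf_mem_iff, UF.inf_mem_iff] at h0
  obtain ⟨⟨-, h5⟩, hz⟩ := h0
  have h2 : ∀ n, φ n z (u n) ∈ V := by
    intro n
    obtain ⟨⟨k, hk, hxk⟩, -⟩ := hrun (nn V n) (E_nn_om V n)
    rw [app_fu' V u n k hxk] at hk
    exact (valAt_tn hD V φ n hz (u n)).1 hk
  have h3 : ∀ n, rsp t u n = v n := by
    intro n
    obtain ⟨-, n', k, hn', hk, hyk⟩ := hrun (nn V n) (E_nn_om V n)
    have h4 : n' = nn V (n + 1) :=
      MU.ext_E V _ _ fun w => (hn' w).trans (isSuc_nn V n w).symm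
    rw [h4, app_fu' V v n k hyk] at hk
    exact tw_val hφ h2 ((resp_stn hD (str_Tw t) V hφ (n + 1) hz (v n)).1 hk)
  have h4 : rsp t u = v := funext h3
  have h6 := V.mem_of_iInf h5 u
  rw [UF.compl_mem_iff, pv_mem, h4] at h6
  exact h6 hxy

end Two

/-- in the models given by the contract every game with at least `2^ℵ₀` boards is determined -/
theorem detLarge {P : Type} [Preorder P] {e : P → B} (h : Ctr P B e) (V : UF B) :
    DetLarge (MU.E V) := by
  refine ⟨om V, MU.mk V (Xn B), isOmega_om V, fun x => mem_xn_iff h.closed h.emb V x, ?_⟩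
  rintro D ⟨j, hj⟩ A hA
  obtain ⟨D, rfl, hD⟩ := exists_dj_name V D
  obtain ⟨j, rfl⟩ := MU.mk_surj V j
  obtain ⟨A, rfl⟩ := MU.mk_surj V A
  obtain ⟨Sg, h1, h2, h3⟩ := h.det (pv A)
  by_cases hV : (⨆ t : List ℕ → ℕ, ⨅ u : ℕ → ℕ, (pv A u (rsp t u))ᶜ) ∈ V
  · right
    obtain ⟨a, ha⟩ := hv_payoff A
    exact (hv_twoWins D A).sup _ a (fun t W haW hW => two_wins h.closed h.emb hD A
      (fun V hV => (ha V).1 hV) t W haW hW) V ((ha V).2 hA) hV
  · left
    obtain ⟨β, J, hJ, hβ⟩ := exists_J hD j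
    exact one_wins hD A hJ h1 h2 h3 V (hβ V hj) hV

end MDI
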